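import Pool.Agent.K1H53.BI.Plan3
import Pool.Agent.K1H53.BI.Fin0

/-! # Project BI, second part (helper53), piece FIN3 -/

set_option autoImplicit false

open scoped ENNReal
open Finset

namespace Pool.Agent.K1H13.BI3

open Pool.Agent.K1H53.BI

theorem law_eq_run (κ : St → PMF St) (T n : ℕ) : law κ T n = run κ ⟨{0}, [], T - 1⟩ n := by
  induction n with
  | zero => rfl
  | succ n ih =>
    show (law κ T n).bind κ = (run κ _ n).bind κ
    rw [ih]

theorem prob_eq (ν : PMF ℕ) (T : ℕ) (G : Finset V → Prop) :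
    prob ν T G = Phi ν G ⟨{0}, [], T - 1⟩ := by
  unfold prob Phi
  simp only [law_eq_run]

theorem markov {α : Type} (p : PMF α) (f : α → ℝ) (a B : ℝ) (ha : 0 < a)
    (h : Ex p (fun x => ENNReal.ofReal (f x ^ 2)) ≤ ENNReal.ofReal B) :
    Ex p (ind fun x => a < |f x|) ≤ ENNReal.ofReal (B / a ^ 2) := by
  have h1 : Ex p (ind fun x => a < |f x|) ≤
      Ex p (fun x => ENNReal.ofReal (1 / a ^ 2) * ENNReal.ofReal (f x ^ 2)) := by
    refine Ex_mono p fun x _ => ind_le _ _ fun hx => ?_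
    rw [← ENNReal.ofReal_mul (by positivity), ← ENNReal.ofReal_one]
    refine ENNReal.ofReal_le_ofReal ?_
    have h2 : a ^ 2 ≤ f x ^ 2 := by
      rw [← sq_abs (f x)]
      exact pow_le_pow_left₀ ha.le hx.le 2
    rw [one_div, ← div_eq_inv_mul, one_le_div (by positivity)]
    exact h2
  refine h1.trans ?_
  rw [Ex_const_mul]
  refine (mul_le_mul' le_rfl h).trans ?_
  rw [← ENNReal.ofReal_mul (by positivity)]
  refine le_of_eq ?_
  congr 1
  ring

theorem t_FIN3 : S_FIN3 := by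
  intro hOFF hREL hINVF hTERM hUU hSBU hAUG hUST hNV hHZ ν hν ε hε
  obtain ⟨σ2, M, hoff⟩ := hOFF ν hν
  obtain ⟨C, hC, hsbu⟩ := hSBU ν σ2 M hoff
  have hM1 : 1 ≤ M := hoff.one
  have hM0 : 0 < M := by linarith
  have hσ : 0 < σ2 := hoff.pos
  -- the constants
  obtain ⟨K, hK1, hKε⟩ : ∃ K : ℝ, 1 ≤ K ∧ 10 * M * 4.2 * 3 ^ 6 / K ^ 2 ≤ ε / 4 := by
    refine ⟨1 + 10 * M * 4.2 * 3 ^ 6 / (ε / 4), ?_, ?_⟩
    · have : 0 ≤ 10 * M * 4.2 * 3 ^ 6 / (ε / 4) := by positivity
      linarith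
    · have hb : 0 < 10 * M * 4.2 * 3 ^ 6 / (ε / 4) := by positivity
      rw [div_le_iff₀ (by positivity)]
      have h1 : 10 * M * 4.2 * 3 ^ 6 / (ε / 4) ≤ (1 + 10 * M * 4.2 * 3 ^ 6 / (ε / 4)) ^ 2 := by
        nlinarith
      rw [div_le_iff₀ (by positivity)] at h1
      linarith
  have hK0 : 0 < K := by linarith
  set η : ℝ := min (1 / 2) (ε / (7680 * C)) with hη
  have hη0 : 0 < η := lt_min (by norm_num) (by positivity)
  have hη2 : η ≤ 1 / 2 := min_le_left _ _
  have hηC : 3840 * C * η ≤ ε / 2 := by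
    have h1 : η ≤ ε / (7680 * C) := min_le_right _ _
    rw [le_div_iff₀ (by positivity)] at h1
    linarith
  set K' : ℝ := 480 + 2 * K + 1 with hK'
  have hK'0 : 0 < K' := by positivity
  obtain ⟨T₁, hT₁⟩ := hHZ η hη0 hη2
  obtain ⟨T₂, hT₂⟩ := rad_large (100 + (1 / η) ^ 2 + (K' * σ2 / (7200 * η ^ 2)) ^ 2)
  refine ⟨η, max (max T₁ T₂) 1, hη0, ?_⟩
  intro T hT
  have hTa : T₁ ≤ T := le_trans (le_trans (le_max_left _ _) (le_max_left _ _)) hT
  have hTb : T₂ ≤ T := le_trans (le_trans (le_max_right _ _) (le_max_left _ _)) hT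
  have hTc : 1 ≤ T := le_trans (le_max_right _ _) hT
  have hrad := hT₂ T hTb
  obtain ⟨n₁, n₂, hn1, hn2, hA⟩ := hT₁ T hTa
  set r := rad T with hr
  set q := Real.sqrt r with hq
  have hr100 : 100 ≤ r := by
    have : 0 ≤ (1 / η) ^ 2 + (K' * σ2 / (7200 * η ^ 2)) ^ 2 := by positivity
    linarith
  have hr0 : 0 < r := by linarith
  have hqq : q * q = r := Real.mul_self_sqrt hr0.le
  have hq0 : 0 < q := Real.sqrt_pos.2 hr0
  have hq1 : 1 ≤ η * q := by
    have h1 : 1 / η ≤ q := by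
      refine Real.le_sqrt_of_sq_le ?_
      have : 0 ≤ (K' * σ2 / (7200 * η ^ 2)) ^ 2 := by positivity
      linarith
    rw [div_le_iff₀ hη0] at h1
    linarith
  have hq2 : K' * σ2 ≤ 7200 * η ^ 2 * q := by
    have h1 : K' * σ2 / (7200 * η ^ 2) ≤ q := by
      refine Real.le_sqrt_of_sq_le ?_
      have : 0 ≤ (1 / η) ^ 2 := by positivity
      linarith
    rw [div_le_iff₀ (by positivity)] at h1
    linarith
  set X := r ^ 4 * q with hX
  have hq1' : 1 ≤ q := by
    have : 0 ≤ (1 / 2 - η) * q := mul_nonneg (by linarith) hq0.le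
    nlinarith
  have hr4 : 1 ≤ r ^ 4 := one_le_pow₀ (by linarith)
  have hX1 : 1 ≤ X := by nlinarith
  have hX0 : 0 < X := by linarith
  set a := 240 * η * (r ^ 2 * q) with ha
  have hr2 : 1 ≤ r ^ 2 := one_le_pow₀ (by linarith)
  have ha1 : 1 ≤ a := by
    have h1 : a = 240 * (r ^ 2 * (η * q)) := by rw [ha]; ring
    rw [h1]
    nlinarith
  have ha0 : 0 < a := by linarith
  set np := max n₁ n₂ + ⌈K * X⌉₊ with hnp
  have hn3a : (n₁ : ℝ) ≤ ((max n₁ n₂ : ℕ) : ℝ) := by exact_mod_cast le_max_left n₁ n₂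
  have hn3b : (n₂ : ℝ) ≤ ((max n₁ n₂ : ℕ) : ℝ) := by exact_mod_cast le_max_right n₁ n₂
  have hn3c : ((max n₁ n₂ : ℕ) : ℝ) ≤ n₁ + 480 * X := by
    rcases max_choice n₁ n₂ with h | h
    · rw [h]
      linarith
    · rw [h]
      exact hn2
  have hKX : 0 ≤ K * X := by positivity
  have hce1 : K * X ≤ (⌈K * X⌉₊ : ℝ) := Nat.le_ceil _
  have hce2 : (⌈K * X⌉₊ : ℝ) < K * X + 1 := Nat.ceil_lt_add_one hKX
  set R := ⌈2 * r⌉₊ with hR
  have hR3 : ((R : ℝ) + 1) ≤ 3 * r := by
    have := Nat.ceil_lt_add_one (show 0 ≤ 2 * r by positivity)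
    linarith
  have hTr : (T : ℝ) ≤ 4.2 * r ^ 3 := by
    have h1 := rad_cube T
    rw [← h1]
    have h2 := Real.pi_lt_d2
    have h3 : 0 ≤ r ^ 3 := by positivity
    nlinarith
  -- the bad event
  set G : Finset V → Prop := fun A => η * Real.sqrt (rad T) ≤ devI T A ∨
    η * Real.sqrt (rad T) ≤ devO T A with hG
  have hbad : ∀ A : Finset V, ¬ G A → n₁ ≤ ∑ z ∈ A, nsq z ∧ ∑ z ∈ A, nsq z ≤ n₂ ∧
      |(A.card : ℝ) - T| ≤ 120 * η * (r ^ 2 * q) ∧ ∀ z ∈ A, nsq z ≤ R ^ 2 := by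
    intro A h
    have h1 : ¬ (η * Real.sqrt (rad T) ≤ devI T A) := fun h2 => h (Or.inl h2)
    have h3 : ¬ (η * Real.sqrt (rad T) ≤ devO T A) := fun h2 => h (Or.inr h2)
    exact hA A (not_le.1 h1) (not_le.1 h3)
  have key : ∀ n : ℕ, Ex (law (step ν) T n) (ind fun s => Fin' s ∧ ¬ G s.A) ≤
      ENNReal.ofReal ε := by
    intro n
    set g : St → ℝ≥0∞ := ind fun s => Fin' s ∧ ¬ G s.A with hg
    have e1 : Ex (law (step ν) T n) g =
        Ex (law (step ν) T n) (fun s => ind (In R) s * g s) := by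
      refine Ex_congr _ fun s _ => ?_
      by_cases hs : Fin' s ∧ ¬ G s.A
      · rw [ind_yes (P := In R) (hbad s.A hs.2).2.2.2, one_mul]
      · rw [hg, ind_no (P := fun s : St => Fin' s ∧ ¬ G s.A) hs, mul_zero]
    have e2 : Ex (law (stepD ν R) T n) (fun s => ind (In R) s * g s) ≤
        Ex (law (stepD ν R) T n) g := by
      refine Ex_mono _ fun s _ => ?_
      have : ind (In R) s ≤ 1 := ind_le _ _ fun _ => le_rfl
      calc ind (In R) s * g s ≤ 1 * g s := mul_le_mul' this le_rfl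
        _ = g s := one_mul _
    have e3 : Ex (law (stepD ν R) T n) g = Ex (lawN ν R T n) (fun p => g p.1) :=
      ((hAUG ν R T n).1 g).symm
    -- splitting
    have e4 : Ex (lawN ν R T n) (fun p => g p.1) ≤
        Ex (lawN ν R T n) (ind fun p => K * X < |(ZZ p.1 : ℝ) - p.2|) +
          2 * Ex (lawN ν R T n) (UF ν T a np) := by
      rw [← Ex_const_mul, ← Ex_add]
      refine Ex_mono _ fun p _ => ?_
      refine ind_le _ _ fun hs => ?_
      by_cases hz : K * X < |(ZZ p.1 : ℝ) - p.2|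
      · rw [ind_yes (P := fun p : St × ℕ => K * X < |(ZZ p.1 : ℝ) - p.2|) hz]
        exact le_self_add
      · refine le_trans ?_ le_add_self
        obtain ⟨⟨hL, hm⟩, hGn⟩ := hs
        obtain ⟨b1, b2, b3, -⟩ := hbad p.1.A hGn
        have hZZ : ZZ p.1 = ∑ z ∈ p.1.A, nsq z := by
          unfold ZZ
          rw [hL]
          simp
        have hyy : yy p.1 = p.1.A.card := by
          unfold yy
          rw [hL, hm]
          simp
        rw [hZZ] at hz
        have hz1 := abs_le.1 (not_lt.1 hz)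
        have c1 : (n₁ : ℝ) ≤ ((∑ z ∈ p.1.A, nsq z : ℕ) : ℝ) := by exact_mod_cast b1
        have c2 : ((∑ z ∈ p.1.A, nsq z : ℕ) : ℝ) ≤ n₂ := by exact_mod_cast b2
        have c3 : (p.2 : ℝ) ≤ n₂ + K * X := by linarith [hz1.1]
        have c4 : (n₁ : ℝ) - K * X ≤ p.2 := by linarith [hz1.2]
        have hnpR : (np : ℝ) = ((max n₁ n₂ : ℕ) : ℝ) + (⌈K * X⌉₊ : ℝ) := by
          rw [hnp, Nat.cast_add]
        have c5 : p.2 ≤ np := by
          have : (p.2 : ℝ) ≤ np := by rw [hnpR]; linarith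
          exact_mod_cast this
        have c6 : ((np - p.2 : ℕ) : ℝ) ≤ K' * X := by
          rw [Nat.cast_sub c5, hnpR, hK']
          linarith
        have c7 : σ2 * ((np - p.2 : ℕ) : ℝ) ≤ (1 / 2) * a ^ 2 / 4 := by
          have h1 : σ2 * ((np - p.2 : ℕ) : ℝ) ≤ σ2 * (K' * X) :=
            mul_le_mul_of_nonneg_left c6 hσ.le
          have h2 : σ2 * (K' * X) ≤ 7200 * η ^ 2 * q * X := by
            have := mul_le_mul_of_nonneg_right hq2 hX0.le
            linarith
          have h3 : (1 / 2) * a ^ 2 / 4 = 7200 * η ^ 2 * q * X := by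
            have : a ^ 2 = 57600 * η ^ 2 * (r ^ 4 * (q * q)) := by rw [ha]; ring
            rw [this, hX]
            ring
          rw [h3]
          exact h1.trans h2
        have c8 : |((yy p.1 : ℕ) : ℝ) - T| ≤ a / 2 := by
          rw [hyy]
          refine b3.trans (le_of_eq ?_)
          rw [ha]
          ring
        have c9 := (hUU ν σ2 M hoff).2 T a (1 / 2) (np - p.2) (yy p.1) ha0 (by norm_num) c8 c7
        unfold UF
        rw [if_pos c5]
        calc (1 : ℝ≥0∞) = 2 * ENNReal.ofReal (1 - 1 / 2) := by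
              rw [show (2 : ℝ≥0∞) = ENNReal.ofReal 2 by simp, ← ENNReal.ofReal_mul (by norm_num)]
              norm_num
          _ ≤ 2 * uu ν T a (np - p.2) (yy p.1) := mul_le_mul' le_rfl c9
    have e5 : Ex (lawN ν R T n) (ind fun p => K * X < |(ZZ p.1 : ℝ) - p.2|) ≤
        ENNReal.ofReal (ε / 4) := by
      refine (markov (lawN ν R T n) (fun p => (ZZ p.1 : ℝ) - p.2) (K * X) _ (by positivity)
        (hNV ν σ2 M R T n hoff hTc)).trans (ENNReal.ofReal_le_ofReal ?_)
      refine le_trans ?_ hKε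
      have h1 : ((R : ℝ) + 1) ^ 6 ≤ (3 * r) ^ 6 := pow_le_pow_left₀ (by positivity) hR3 6
      have h2 : (K * X) ^ 2 = K ^ 2 * r ^ 9 := by
        rw [hX]
        have : (K * (r ^ 4 * q)) ^ 2 = K ^ 2 * r ^ 8 * (q * q) := by ring
        rw [this, hqq]
        ring
      rw [h2]
      have h3 : 10 * M * (T : ℝ) * ((R : ℝ) + 1) ^ 6 ≤ 10 * M * (4.2 * r ^ 3) * (3 * r) ^ 6 := by
        refine mul_le_mul ?_ h1 (by positivity) (by positivity)
        exact mul_le_mul_of_nonneg_left hTr (by positivity)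
      rw [div_le_div_iff₀ (by positivity) (by positivity)]
      have h4 : 10 * M * (4.2 * r ^ 3) * (3 * r) ^ 6 = 10 * M * 4.2 * 3 ^ 6 * r ^ 9 := by ring
      rw [h4] at h3
      have h5 := mul_le_mul_of_nonneg_right h3 (show 0 ≤ K ^ 2 by positivity)
      linarith
    have hnpR : r ^ 5 / 64 ≤ (np : ℝ) := by
      rw [hnp, Nat.cast_add]
      linarith
    have e6 : Ex (lawN ν R T n) (UF ν T a np) ≤ ENNReal.ofReal (ε / 4) := by
      have hnp1 : 1 ≤ np := by
        have h1 : (1 : ℝ) ≤ r ^ 5 / 64 := by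
          rw [le_div_iff₀ (by norm_num)]
          have : (100 : ℝ) ^ 5 ≤ r ^ 5 := pow_le_pow_left₀ (by norm_num) hr100 5
          linarith
        have h2 : (1 : ℝ) ≤ np := h1.trans hnpR
        exact_mod_cast h2
      refine ((hUST ν σ2 M R T n np a hoff hTc).trans (hsbu T a np T hnp1 ha1)).trans
        (ENNReal.ofReal_le_ofReal ?_)
      have hs : r ^ 2 * q / 8 ≤ Real.sqrt np := by
        refine Real.le_sqrt_of_sq_le ?_
        have : (r ^ 2 * q / 8) ^ 2 = r ^ 4 * (q * q) / 64 := by ring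
        rw [this, hqq]
        have h2 : r ^ 4 * r / 64 = r ^ 5 / 64 := by ring
        rw [h2]
        exact hnpR
      have hs0 : 0 < r ^ 2 * q / 8 := by positivity
      calc C * a / Real.sqrt np ≤ C * a / (r ^ 2 * q / 8) :=
            div_le_div_of_nonneg_left (by positivity) hs0 hs
        _ = 1920 * C * η := by
            rw [ha]
            field_simp
            ring
        _ ≤ ε / 4 := by linarith
    calc Ex (law (step ν) T n) g = Ex (law (stepD ν R) T n) (fun s => ind (In R) s * g s) :=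
          e1.trans ((hREL ν R T).1 n g)
      _ ≤ Ex (law (stepD ν R) T n) g := e2
      _ = Ex (lawN ν R T n) (fun p => g p.1) := e3
      _ ≤ _ := e4
      _ ≤ ENNReal.ofReal (ε / 4) + 2 * ENNReal.ofReal (ε / 4) :=
          add_le_add e5 (mul_le_mul' le_rfl e6)
      _ = ENNReal.ofReal (ε / 4 + 2 * (ε / 4)) := by
          rw [ENNReal.ofReal_add (by positivity) (by positivity),
            ENNReal.ofReal_mul (by norm_num : (0 : ℝ) ≤ 2)]
          simp
      _ ≤ ENNReal.ofReal ε := ENNReal.ofReal_le_ofReal (by linarith)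
  have hbadP : prob ν T (fun A => ¬ G A) ≤ ENNReal.ofReal ε := iSup_le key
  have hone := (hTERM ν σ2 M T hoff hTc).2.1
  have hadd := hINVF.2.2.2 ν G ⟨{0}, [], T - 1⟩
  rw [← prob_eq, ← prob_eq, ← prob_eq, hone] at hadd
  show ENNReal.ofReal (1 - ε) ≤ prob ν T G
  rw [ENNReal.ofReal_sub _ hε.le, ENNReal.ofReal_one, tsub_le_iff_right, ← hadd]
  exact add_le_add le_rfl hbadP

end Pool.Agent.K1H13.BI3
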