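import Pool.Agent.K1H2.BI.Stm

/-! # Project BI (helper2), piece SPREAD: the main estimate for outer deviations -/

set_option autoImplicit false

namespace Pool.Agent.K1H13.BI

open Pool.Agent.K1H2.BI
open MeasureTheory ProbabilityTheory Filter
open scoped ENNReal Topology BigOperators

universe u

theorem var_nonneg (ν : PMF ℕ) : 0 ≤ var ν := tsum_nonneg fun k => by positivity

/-- the states in which the process is stopped -/
def FrS (t : ℕ) (R : ℝ) : Set State := {s | t ≤ s.t ∨ ∃ x ∈ s.A, R ≤ len x}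

theorem pot_nonneg (R : ℝ) (x : Site) : 0 ≤ pot R x := le_max_right _ _

theorem pot_le (R : ℝ) (x : Site) : pot R x ≤ (R + 1) ^ 2 := by
  unfold pot
  refine max_le ?_ (by positivity)
  have : 0 ≤ nsq x := Finset.sum_nonneg fun i _ => sq_nonneg _
  linarith

theorem G_nonneg {R : ℝ} {m : ℕ} {s : State} (h : s.t ≤ m) : 0 ≤ G R m s := by
  unfold G
  have h1 : 0 ≤ (s.L.map (pot R)).sum := List.sum_nonneg (by
    intro y hy
    obtain ⟨x, _, rfl⟩ := List.mem_map.1 hy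
    exact pot_nonneg R x)
  have h2 : (0 : ℝ) ≤ (m : ℝ) - s.t := by
    have : (s.t : ℝ) ≤ m := by exact_mod_cast h
    linarith
  positivity

theorem G_le {R : ℝ} {t : ℕ} {s : State} (h2 : S s ≤ t / 2) (ht : 1 ≤ t) :
    G R t s ≤ 4 * t * (R + 1) ^ 2 := by
  have h3 : (s.L.map (pot R)).sum ≤ (s.L.length : ℝ) * (R + 1) ^ 2 := by
    have := List.sum_le_card_nsmul (s.L.map (pot R)) ((R + 1) ^ 2) (by
      intro y hy
      obtain ⟨x, _, rfl⟩ := List.mem_map.1 hy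
      exact pot_le R x)
    simpa using this
  have h4 : (0 : ℝ) ≤ (R + 1) ^ 2 := by positivity
  have h5 : (1 : ℝ) ≤ t := by exact_mod_cast ht
  have h6 : (0 : ℝ) ≤ (s.A.card : ℝ) := by positivity
  have h7 : (s.L.length : ℝ) + ((t : ℝ) - s.t) ≤ 4 * t := by
    unfold S at h2
    linarith
  unfold G
  calc (s.L.map (pot R)).sum + ((t : ℝ) - s.t) * (R + 1) ^ 2
      ≤ ((s.L.length : ℝ) + ((t : ℝ) - s.t)) * (R + 1) ^ 2 := by linarith
    _ ≤ 4 * t * (R + 1) ^ 2 := mul_le_mul_of_nonneg_right h7 h4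

theorem frz_t (hTr : S_TRAJ) (hF : S_FRZ) (I : ℕ → Inst) (t n0 : ℕ) (R : ℝ)
    (h0 : (X I n0).t < t) (k : ℕ) : (frz (FrS t R) I n0 k).1.t ≤ t := by
  obtain ⟨j, hj, he, h1, h2⟩ := hF (FrS t R) I n0 k
  obtain ⟨_, _, hmono, hstep, hT⟩ := hTr I
  rw [he]
  show (X I (n0 + j)).t ≤ t
  rcases Nat.eq_zero_or_pos j with rfl | hj0
  · exact h0.le
  · obtain ⟨i, rfl⟩ : ∃ i, j = i + 1 := ⟨j - 1, by omega⟩
    have h3 := h2 i (Nat.lt_succ_self i)
    have h4 : (X I (n0 + i)).t < t := by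
      by_contra h
      exact h3 (Or.inl (not_lt.1 h))
    have h5 := hstep (n0 + i)
    have h6 : n0 + (i + 1) = n0 + i + 1 := rfl
    rw [h6]
    omega

theorem path (hTr : S_TRAJ) (hF : S_FRZ) (I : ℕ → Inst) (t n0 N : ℕ) (R : ℝ) (ht : 1 ≤ t)
    (h0 : (X I n0).t < t) (hN : t ≤ (X I N).t) (k : ℕ) (hk : N ≤ n0 + k) :
    (∃ z ∈ agg I t, R ≤ len z) ∨
      S (frz (FrS t R) I n0 k).1 = ((agg I t).card : ℝ) - t := by
  obtain ⟨j, hj, he, h1, h2⟩ := hF (FrS t R) I n0 k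
  obtain ⟨_, _, hmono, hstep, hT⟩ := hTr I
  obtain ⟨hT1, hT2, hT3, hT4, hT5⟩ := hT t N ht hN
  have hn0 : n0 < T I t := by
    by_contra h
    have := (hmono (T I t) n0 (not_lt.1 h)).2
    omega
  have hle : n0 + j ≤ T I t := by
    by_contra hlt
    have h3 := h2 (T I t - n0) (by omega)
    have h4 : n0 + (T I t - n0) = T I t := by omega
    rw [h4] at h3
    exact h3 (Or.inl hT2.ge)
  have hin : X I (n0 + j) ∈ FrS t R := by
    rcases Nat.lt_or_ge j k with h | h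
    · exact h1 h
    · exact Or.inl (le_trans hN (hmono N (n0 + j) (by omega)).2)
  rcases hin with h | ⟨x, hx, hxR⟩
  · right
    have h3 : T I t ≤ n0 + j := (hT t (n0 + j) ht h).1
    have h4 : n0 + j = T I t := le_antisymm hle h3
    rw [he, h4]
    show S (X I (T I t)) = _
    unfold S
    rw [hT2, hT3]
    show ((agg I t).card : ℝ) + (([0] : List Site).length : ℝ) - t - 1 = _
    simp only [List.length_singleton, Nat.cast_one]
    ring
  · exact Or.inl ⟨x, (hmono (n0 + j) (T I t) hle).1 hx, hxR⟩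

theorem core (hL : S_LYA.{u}) (hO : S_ONE) (hTr : S_TRAJ) (hF : S_FRZ) (hM : S_MEAS.{u})
    (hI : S_INNER.{u}) (Ω : Type u) [MeasurableSpace Ω] (P : Measure Ω) [IsProbabilityMeasure P]
    (ν : PMF ℕ) (ins : ℕ → Ω → Inst) (hC : Crit ν) (hD : Drawn P ν ins)
    (t n0 : ℕ) (R K1 σ : ℝ) (hσ : |σ| = 1) (ht : 1 ≤ t) (hR : 0 ≤ R) (hK1 : 0 < K1)
    (hn0 : 0 < n0) (hK : 64 * var ν * t * (R + 1) ^ 2 ≤ K1 ^ 2 * n0)
    (H : Set Ω) (hH : MeasurableSet[past ins n0] H)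
    (h1 : ∀ ω ∈ H, (X (at' ins ω) n0).t < t) (h2 : ∀ ω ∈ H, S (X (at' ins ω) n0) ≤ t / 2)
    (h3 : ∀ ω ∈ H, K1 * Real.sqrt n0 ≤ σ * S (X (at' ins ω) n0)) :
    P.real H / 2 ≤ P.real (H ∩ {ω | (∃ z ∈ agg (at' ins ω) t, R ≤ len z) ∨
      K1 / 2 * Real.sqrt n0 ≤ σ * (((agg (at' ins ω) t).card : ℝ) - t)}) := by
  obtain ⟨hcount, _, hM3⟩ := hM
  have := hcount
  obtain ⟨hX, hpast, hpm, hfr⟩ := hM3 Ω P ν ins hD
  have : DiscreteMeasurableSpace State := ⟨fun _ => trivial⟩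
  have hXm : ∀ n, Measurable fun ω => X (at' ins ω) n := fun n => (hX n).mono (hpast n) le_rfl
  have hFm : ∀ k, Measurable fun ω => frz (FrS t R) (at' ins ω) n0 k := fun k =>
    (hfr _ n0 k).mono (hpast _) le_rfl
  have hHm : MeasurableSet H := hpast n0 _ hH
  rcases eq_or_lt_of_le (measureReal_nonneg (μ := P) (s := H)) with h0 | hpos
  · rw [← h0]
    simp only [zero_div]
    exact measureReal_nonneg
  -- the level `t` is reached before event `N`
  obtain ⟨N, hN⟩ : ∃ N : ℕ, P.real {ω | t ≤ (X (at' ins ω) N).t}ᶜ ≤ P.real H / 4 := by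
    have hmeas : ∀ N, MeasurableSet {ω | t ≤ (X (at' ins ω) N).t} := fun N =>
      (hXm N) (MeasurableSet.of_discrete (s := {s : State | t ≤ s.t}))
    have hmono : Monotone fun N : ℕ => {ω | t ≤ (X (at' ins ω) N).t} := by
      intro a b hab ω hω
      exact le_trans hω ((hTr (at' ins ω)).2.2.1 a b hab).2
    have hU : P (⋃ N : ℕ, {ω | t ≤ (X (at' ins ω) N).t}) = 1 := by
      rw [← mem_ae_iff_prob_eq_one (MeasurableSet.iUnion hmeas)]
      filter_upwards [(hI Ω P ν ins hC hD).1] with ω hω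
      obtain ⟨n, hn⟩ := hω t ht
      exact Set.mem_iUnion.2 ⟨n, hn.ge⟩
    have hlim := tendsto_measure_iUnion_atTop (μ := P) hmono
    rw [hU] at hlim
    have hlim2 : Tendsto (fun N : ℕ => P.real {ω | t ≤ (X (at' ins ω) N).t}) atTop (𝓝 1) := by
      have := (ENNReal.tendsto_toReal ENNReal.one_ne_top).comp hlim
      simpa [Measure.real, Function.comp_def] using this
    have hev := hlim2.eventually (lt_mem_nhds (show 1 - P.real H / 4 < 1 by linarith))
    obtain ⟨N, hN⟩ := hev.exists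
    refine ⟨N, ?_⟩
    rw [probReal_compl_eq_one_sub (hmeas N)]
    linarith
  set FN : Set Ω := {ω | t ≤ (X (at' ins ω) N).t} with hFN
  set B : Set Ω := H ∩ {ω | K1 / 2 * Real.sqrt n0 ≤
    |S (frz (FrS t R) (at' ins ω) n0 N).1 - S (X (at' ins ω) n0)|} with hB
  have hn0' : (0 : ℝ) < n0 := by exact_mod_cast hn0
  have hBm : MeasurableSet B := by
    refine hHm.inter (measurableSet_le measurable_const ?_)
    have m1 : Measurable fun ω => S (frz (FrS t R) (at' ins ω) n0 N).1 :=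
      (Measurable.of_discrete (f := S)).comp ((measurable_fst).comp (hFm N))
    have m2 : Measurable fun ω => S (X (at' ins ω) n0) :=
      (Measurable.of_discrete (f := S)).comp (hXm n0)
    exact (m1.sub m2).abs
  have hvar := var_nonneg ν
  have hBP : 4 * P.real B ≤ P.real H := by
    have hl := hL Ω P ν ins hD (FrS t R) n0 H hH
      (fun s₀ q => ENNReal.ofReal ((S q.1 - S s₀) ^ 2 + var ν * G R t q.1)) 0 (by
        intro s₀ s k hs hns
        have h4 : s.t < t := by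
          by_contra h
          exact hns (Or.inl (not_lt.1 h))
        have h5 : ∀ x ∈ s.A, len x ≤ R := by
          intro x hx
          by_contra h
          exact hns (Or.inr ⟨x, hx, (not_le.1 h).le⟩)
        have := (hO ν hC).2.2 s (S s₀) R t hs hR h4 h5
        simpa using this) N
    have hr : ∫⁻ ω in H, ENNReal.ofReal ((S (X (at' ins ω) n0) - S (X (at' ins ω) n0)) ^ 2 +
        var ν * G R t (X (at' ins ω) n0)) ∂P ≤
        ENNReal.ofReal (var ν * (4 * t * (R + 1) ^ 2)) * P H := by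
      rw [← setLIntegral_const]
      refine setLIntegral_mono' hHm fun ω hω => ENNReal.ofReal_le_ofReal ?_
      have := mul_le_mul_of_nonneg_left (G_le (R := R) (h2 ω hω) ht) hvar
      simpa using this
    have hll : ENNReal.ofReal ((K1 / 2 * Real.sqrt n0) ^ 2) * P B ≤
        ∫⁻ ω in H, ENNReal.ofReal ((S (frz (FrS t R) (at' ins ω) n0 N).1 -
          S (X (at' ins ω) n0)) ^ 2 + var ν * G R t (frz (FrS t R) (at' ins ω) n0 N).1) ∂P := by
      rw [← setLIntegral_const]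
      refine le_trans (setLIntegral_mono' hBm fun ω hω => ENNReal.ofReal_le_ofReal ?_)
        (lintegral_mono_set (Set.inter_subset_left : B ⊆ H))
      have h6 := G_nonneg (R := R) (frz_t hTr hF (at' ins ω) t n0 R (h1 ω hω.1) N)
      have h7 : (K1 / 2 * Real.sqrt n0) ^ 2 ≤
          |S (frz (FrS t R) (at' ins ω) n0 N).1 - S (X (at' ins ω) n0)| ^ 2 :=
        pow_le_pow_left₀ (by positivity) hω.2 2
      rw [sq_abs] at h7
      have h8 : 0 ≤ var ν * G R t (frz (FrS t R) (at' ins ω) n0 N).1 := mul_nonneg hvar h6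
      linarith
    have hfin : ENNReal.ofReal ((K1 / 2 * Real.sqrt n0) ^ 2) * P B ≤
        ENNReal.ofReal (var ν * (4 * t * (R + 1) ^ 2)) * P H := by
      refine le_trans hll (le_trans (by simpa using hl) hr)
    have hreal := ENNReal.toReal_mono
      (ENNReal.mul_ne_top ENNReal.ofReal_ne_top (measure_ne_top P H)) hfin
    rw [ENNReal.toReal_mul, ENNReal.toReal_mul, ENNReal.toReal_ofReal (by positivity),
      ENNReal.toReal_ofReal (by positivity)] at hreal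
    change (K1 / 2 * Real.sqrt n0) ^ 2 * P.real B ≤ var ν * (4 * t * (R + 1) ^ 2) * P.real H at hreal
    have hsq : (K1 / 2 * Real.sqrt n0) ^ 2 = K1 ^ 2 * n0 / 4 := by
      rw [mul_pow, Real.sq_sqrt hn0'.le]
      ring
    rw [hsq] at hreal
    have ha : 0 < K1 ^ 2 * (n0 : ℝ) := by positivity
    have hb : var ν * (4 * t * (R + 1) ^ 2) * P.real H ≤ K1 ^ 2 * n0 / 16 * P.real H := by
      refine mul_le_mul_of_nonneg_right ?_ hpos.le
      linarith
    have hc : K1 ^ 2 * n0 / 4 * P.real B ≤ K1 ^ 2 * n0 / 16 * P.real H := hreal.trans hb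
    have hd : K1 ^ 2 * (n0 : ℝ) * (4 * P.real B) ≤ K1 ^ 2 * n0 * P.real H := by linarith
    exact le_of_mul_le_mul_left hd ha
  -- the inclusion
  have hsub : H ⊆ ((H ∩ {ω | (∃ z ∈ agg (at' ins ω) t, R ≤ len z) ∨
      K1 / 2 * Real.sqrt n0 ≤ σ * (((agg (at' ins ω) t).card : ℝ) - t)}) ∪ FNᶜ) ∪ B := by
    intro ω hω
    by_cases hF1 : ω ∈ FN
    · by_cases hB1 : ω ∈ B
      · exact Or.inr hB1
      · left
        left
        refine ⟨hω, ?_⟩
        rcases path hTr hF (at' ins ω) t n0 N R ht (h1 ω hω) hF1 N (by omega) with h | h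
        · exact Or.inl h
        · right
          have h4 : |S (frz (FrS t R) (at' ins ω) n0 N).1 - S (X (at' ins ω) n0)| <
              K1 / 2 * Real.sqrt n0 := by
            by_contra h5
            exact hB1 ⟨hω, not_lt.1 h5⟩
          have h5 := h3 ω hω
          rw [← h]
          have h6 : |σ * (S (frz (FrS t R) (at' ins ω) n0 N).1 - S (X (at' ins ω) n0))| <
              K1 / 2 * Real.sqrt n0 := by
            rw [abs_mul, hσ, one_mul]
            exact h4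
          have h7 := (abs_lt.1 h6).1
          have h8 : σ * (S (frz (FrS t R) (at' ins ω) n0 N).1 - S (X (at' ins ω) n0)) =
            σ * S (frz (FrS t R) (at' ins ω) n0 N).1 - σ * S (X (at' ins ω) n0) := by ring
          rw [h8] at h7
          linarith
    · exact Or.inl (Or.inr hF1)
  have hm := measureReal_mono (μ := P) hsub
  have hu1 := measureReal_union_le (μ := P) ((H ∩ {ω | (∃ z ∈ agg (at' ins ω) t, R ≤ len z) ∨
      K1 / 2 * Real.sqrt n0 ≤ σ * (((agg (at' ins ω) t).card : ℝ) - t)}) ∪ FNᶜ) B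
  have hu2 := measureReal_union_le (μ := P) (H ∩ {ω | (∃ z ∈ agg (at' ins ω) t, R ≤ len z) ∨
      K1 / 2 * Real.sqrt n0 ≤ σ * (((agg (at' ins ω) t).card : ℝ) - t)}) FNᶜ
  linarith

/-- radius and potential for large `t` -/
theorem rad_bound (t : ℕ) (ht : 1 ≤ t) :
    (t : ℝ) * (2 * rad t + 1) ^ 2 ≤ 9 * (t : ℝ) ^ (5 / 3 : ℝ) := by
  have h1 : (1 : ℝ) ≤ t := by exact_mod_cast ht
  have h0 : (0 : ℝ) < t := by linarith
  have h2 : rad t ≤ (t : ℝ) ^ (1 / 3 : ℝ) := by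
    unfold rad
    refine Real.rpow_le_rpow (by positivity) ?_ (by norm_num)
    rw [div_le_iff₀ (by positivity)]
    nlinarith [Real.pi_gt_three]
  have h3 : (1 : ℝ) ≤ (t : ℝ) ^ (1 / 3 : ℝ) := Real.one_le_rpow h1 (by norm_num)
  have h4 : 0 ≤ rad t := by unfold rad; positivity
  have h5 : (2 * rad t + 1) ^ 2 ≤ (3 * (t : ℝ) ^ (1 / 3 : ℝ)) ^ 2 :=
    pow_le_pow_left₀ (by positivity) (by linarith) 2
  have h6 : ((t : ℝ) ^ (1 / 3 : ℝ)) ^ 2 = (t : ℝ) ^ (2 / 3 : ℝ) := by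
    rw [← Real.rpow_natCast, ← Real.rpow_mul h0.le]
    norm_num
  have h7 : (t : ℝ) * (t : ℝ) ^ (2 / 3 : ℝ) = (t : ℝ) ^ (5 / 3 : ℝ) := by
    nth_rewrite 1 [← Real.rpow_one (t : ℝ)]
    rw [← Real.rpow_add h0]
    norm_num
  calc (t : ℝ) * (2 * rad t + 1) ^ 2 ≤ t * (3 * (t : ℝ) ^ (1 / 3 : ℝ)) ^ 2 :=
        mul_le_mul_of_nonneg_left h5 h0.le
    _ = 9 * ((t : ℝ) * (t : ℝ) ^ (2 / 3 : ℝ)) := by rw [mul_pow, h6]; ring
    _ = 9 * (t : ℝ) ^ (5 / 3 : ℝ) := by rw [h7]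

/-- one sign -/
theorem half (hL : S_LYA.{u}) (hO : S_ONE) (hSe : S_SECM.{u}) (hTr : S_TRAJ) (hF : S_FRZ)
    (hM : S_MEAS.{u}) (hI : S_INNER.{u}) (Ω : Type u) [MeasurableSpace Ω] (P : Measure Ω)
    [IsProbabilityMeasure P] (ν : PMF ℕ) (ins : ℕ → Ω → Inst) (hC : Crit ν)
    (hD : Drawn P ν ins) (c C : ℝ) (hc : 0 < c)
    (hT : ∀ m : ℕ, 1 ≤ m →
      P.real {ω | m ≤ (X (at' ins ω) ⌊c * (m : ℝ) ^ (5 / 3 : ℝ)⌋₊).t} ≤
        C * (m : ℝ) ^ (-(1 / 3) : ℝ)) (K K1 σ p : ℝ) (hσ : |σ| = 1) (hK : 0 ≤ K)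
    (hK1 : 0 < K1) (hK1a : 1152 * var ν ≤ K1 ^ 2 * c) (hK1b : 2 * K ≤ K1 * Real.sqrt (c / 2))
    (hp : 0 < p) (m : ℕ) (H : Set Ω) (hH : MeasurableSet[past ins m] H)
    (hW : ∀ᶠ n : ℕ in atTop, p * P.real H ≤
      P.real (H ∩ {ω | K1 * Real.sqrt n ≤
        σ * ∑ j ∈ Finset.range n, (((ins j ω).1.length : ℝ) - 1)})) :
    ∀ᶠ t : ℕ in atTop, p / 4 * P.real H ≤
      P.real (H ∩ {ω | (∃ z ∈ agg (at' ins ω) t, 2 * rad t ≤ len z) ∨
        K * (t : ℝ) ^ (5 / 6 : ℝ) ≤ σ * (((agg (at' ins ω) t).card : ℝ) - t)}) := by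
  rcases eq_or_lt_of_le (measureReal_nonneg (μ := P) (s := H)) with h0 | hpos
  · rw [← h0]
    simp only [mul_zero]
    exact Eventually.of_forall fun _ => measureReal_nonneg
  have hvar := var_nonneg ν
  have hcast : Tendsto (fun t : ℕ => (t : ℝ)) atTop atTop := tendsto_natCast_atTop_atTop
  have hbig : Tendsto (fun t : ℕ => c * (t : ℝ) ^ (5 / 3 : ℝ)) atTop atTop :=
    ((tendsto_rpow_atTop (by norm_num : (0 : ℝ) < 5 / 3)).comp hcast).const_mul_atTop hc
  have hn : Tendsto (fun t : ℕ => ⌊c * (t : ℝ) ^ (5 / 3 : ℝ)⌋₊) atTop atTop :=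
    tendsto_nat_floor_atTop.comp hbig
  have hsmall : Tendsto (fun t : ℕ => (t : ℝ) ^ (-(1 / 3) : ℝ)) atTop (𝓝 0) :=
    (tendsto_rpow_neg_atTop (by norm_num : (0 : ℝ) < 1 / 3)).comp hcast
  have hs1 : Tendsto (fun t : ℕ => C * (t : ℝ) ^ (-(1 / 3) : ℝ)) atTop (𝓝 0) := by
    simpa using hsmall.const_mul C
  have hs2 : Tendsto (fun t : ℕ => 4 * c * var ν * (t : ℝ) ^ (-(1 / 3) : ℝ)) atTop (𝓝 0) := by
    simpa using hsmall.const_mul (4 * c * var ν)
  have hpH : 0 < p / 4 * P.real H := by positivity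
  filter_upwards [hn.eventually hW, hn.eventually_ge_atTop m, hbig.eventually_ge_atTop 2,
    hs1.eventually (gt_mem_nhds hpH), hs2.eventually (gt_mem_nhds hpH), eventually_ge_atTop 1]
    with t w1 w2 w3 w4 w5 ht
  set n0 := ⌊c * (t : ℝ) ^ (5 / 3 : ℝ)⌋₊ with hn0
  have ht1 : (1 : ℝ) ≤ t := by exact_mod_cast ht
  have ht0 : (0 : ℝ) < t := by linarith
  have hfl : c * (t : ℝ) ^ (5 / 3 : ℝ) - 1 < n0 := Nat.sub_one_lt_floor _
  have hfu : (n0 : ℝ) ≤ c * (t : ℝ) ^ (5 / 3 : ℝ) := Nat.floor_le (by positivity)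
  have hlow : c / 2 * (t : ℝ) ^ (5 / 3 : ℝ) ≤ n0 := by linarith
  have hn0r : (0 : ℝ) < n0 := by linarith
  have hn0p : 0 < n0 := by exact_mod_cast hn0r
  have hR : 0 ≤ rad t := by unfold rad; positivity
  obtain ⟨hX, hpast, hpm, hfr⟩ := hM.2.2 Ω P ν ins hD
  have hS : ∀ ω, S (X (at' ins ω) n0) = ∑ j ∈ Finset.range n0, (((ins j ω).1.length : ℝ) - 1) :=
    fun ω => (hTr (at' ins ω)).2.1 n0
  -- the event at time `n0`
  set E1 : Set Ω := {ω | K1 * Real.sqrt n0 ≤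
    σ * ∑ j ∈ Finset.range n0, (((ins j ω).1.length : ℝ) - 1)} with hE1
  set E2 : Set Ω := {ω | (t : ℝ) / 2 ≤
    |∑ j ∈ Finset.range n0, (((ins j ω).1.length : ℝ) - 1)|} with hE2
  set E3 : Set Ω := {ω | t ≤ (X (at' ins ω) n0).t} with hE3
  have mX : ∀ Q : Set State, MeasurableSet[past ins n0] {ω | X (at' ins ω) n0 ∈ Q} := fun Q =>
    (hX n0) (show MeasurableSet Q from trivial)
  have mE1 : MeasurableSet[past ins n0] E1 := by
    have h := mX {s | K1 * Real.sqrt n0 ≤ σ * S s}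
    have h2 : E1 = {ω | X (at' ins ω) n0 ∈ {s | K1 * Real.sqrt n0 ≤ σ * S s}} := by
      ext ω
      simp only [hE1, Set.mem_ofPred_eq, hS]
    rw [h2]
    exact h
  have mE2 : MeasurableSet[past ins n0] E2 := by
    have h := mX {s | (t : ℝ) / 2 ≤ |S s|}
    have h2 : E2 = {ω | X (at' ins ω) n0 ∈ {s | (t : ℝ) / 2 ≤ |S s|}} := by
      ext ω
      simp only [hE2, Set.mem_ofPred_eq, hS]
    rw [h2]
    exact h
  have mE3 : MeasurableSet[past ins n0] E3 := mX {s | t ≤ s.t}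
  have mH : MeasurableSet[past ins n0] H := hpm m n0 w2 H hH
  set H' : Set Ω := ((H ∩ E1) \ E2) \ E3 with hH'
  have mH' : MeasurableSet[past ins n0] H' :=
    MeasurableSet.diff (MeasurableSet.diff (MeasurableSet.inter mH mE1) mE2) mE3
  have b2 : P.real E2 ≤ p / 4 * P.real H := by
    have h := hSe Ω P ν ins hC hD n0 (t / 2) (by positivity)
    have h2 : (n0 : ℝ) * var ν / ((t : ℝ) / 2) ^ 2 ≤ 4 * c * var ν * (t : ℝ) ^ (-(1 / 3) : ℝ) := by
      rw [div_le_iff₀ (by positivity)]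
      have h3 : (t : ℝ) ^ (-(1 / 3) : ℝ) * (t : ℝ) ^ 2 = (t : ℝ) ^ (5 / 3 : ℝ) := by
        rw [← Real.rpow_natCast (t : ℝ) 2, ← Real.rpow_add ht0]
        norm_num
      calc (n0 : ℝ) * var ν ≤ c * (t : ℝ) ^ (5 / 3 : ℝ) * var ν :=
            mul_le_mul_of_nonneg_right hfu hvar
        _ = 4 * c * var ν * ((t : ℝ) ^ (-(1 / 3) : ℝ) * (t : ℝ) ^ 2) / 4 := by rw [h3]; ring
        _ = 4 * c * var ν * (t : ℝ) ^ (-(1 / 3) : ℝ) * ((t : ℝ) / 2) ^ 2 := by ring
    linarith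
  have b3 : P.real E3 ≤ p / 4 * P.real H := by
    have h := hT t ht
    linarith
  have bH' : p / 2 * P.real H ≤ P.real H' := by
    have h1 : H ∩ E1 ⊆ (H' ∪ E2) ∪ E3 := by
      intro ω hω
      by_cases h3 : ω ∈ E3
      · exact Or.inr h3
      · by_cases h2 : ω ∈ E2
        · exact Or.inl (Or.inr h2)
        · exact Or.inl (Or.inl ⟨⟨hω, h2⟩, h3⟩)
    have h2 := measureReal_mono (μ := P) h1
    have h3 := measureReal_union_le (μ := P) (H' ∪ E2) E3
    have h4 := measureReal_union_le (μ := P) H' E2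
    have h5 : p * P.real H ≤ P.real (H ∩ E1) := w1
    linarith
  have hcore := core hL hO hTr hF hM hI Ω P ν ins hC hD t n0 (2 * rad t) K1 σ hσ ht
    (by positivity) hK1 hn0p (by
      have h1 := rad_bound t ht
      have h2 : 64 * var ν * ((t : ℝ) * (2 * rad t + 1) ^ 2) ≤
          64 * var ν * (9 * (t : ℝ) ^ (5 / 3 : ℝ)) :=
        mul_le_mul_of_nonneg_left h1 (by positivity)
      have h3 : K1 ^ 2 * (c / 2 * (t : ℝ) ^ (5 / 3 : ℝ)) ≤ K1 ^ 2 * n0 :=
        mul_le_mul_of_nonneg_left hlow (by positivity)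
      have h4 : 1152 * var ν * (t : ℝ) ^ (5 / 3 : ℝ) ≤ K1 ^ 2 * c * (t : ℝ) ^ (5 / 3 : ℝ) :=
        mul_le_mul_of_nonneg_right hK1a (by positivity)
      nlinarith [h2, h3, h4]) H' mH' (fun ω hω => by
      by_contra h
      exact hω.2 (not_lt.1 h))
    (fun ω hω => by
      have h : |∑ j ∈ Finset.range n0, (((ins j ω).1.length : ℝ) - 1)| < (t : ℝ) / 2 := by
        by_contra h
        exact hω.1.2 (not_lt.1 h)
      rw [hS]
      exact (le_abs_self _).trans h.le)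
    (fun ω hω => by
      rw [hS]
      exact hω.1.1.2)
  have hsub : H' ∩ {ω | (∃ z ∈ agg (at' ins ω) t, 2 * rad t ≤ len z) ∨
      K1 / 2 * Real.sqrt n0 ≤ σ * (((agg (at' ins ω) t).card : ℝ) - t)} ⊆
      H ∩ {ω | (∃ z ∈ agg (at' ins ω) t, 2 * rad t ≤ len z) ∨
        K * (t : ℝ) ^ (5 / 6 : ℝ) ≤ σ * (((agg (at' ins ω) t).card : ℝ) - t)} := by
    rintro ω ⟨hω, h⟩
    refine ⟨hω.1.1.1, ?_⟩
    rcases h with h | h
    · exact Or.inl h
    · right
      refine le_trans ?_ h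
      have h1 : Real.sqrt (c / 2) * (t : ℝ) ^ (5 / 6 : ℝ) ≤ Real.sqrt n0 := by
        refine Real.le_sqrt_of_sq_le ?_
        rw [mul_pow, Real.sq_sqrt (by positivity), ← Real.rpow_natCast ((t : ℝ) ^ (5 / 6 : ℝ)) 2,
          ← Real.rpow_mul ht0.le]
        norm_num
        linarith
      have h2 : 0 ≤ (t : ℝ) ^ (5 / 6 : ℝ) := by positivity
      calc K * (t : ℝ) ^ (5 / 6 : ℝ) = 2 * K * (t : ℝ) ^ (5 / 6 : ℝ) / 2 := by ring
        _ ≤ K1 * Real.sqrt (c / 2) * (t : ℝ) ^ (5 / 6 : ℝ) / 2 := by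
            have := mul_le_mul_of_nonneg_right hK1b h2
            linarith
        _ = K1 / 2 * (Real.sqrt (c / 2) * (t : ℝ) ^ (5 / 6 : ℝ)) := by ring
        _ ≤ K1 / 2 * Real.sqrt n0 := mul_le_mul_of_nonneg_left h1 (by positivity)
  have hfin := measureReal_mono (μ := P) hsub
  linarith

theorem t_SPREAD (hL : S_LYA.{u}) (hO : S_ONE) (hW : S_WALK.{u}) (hSe : S_SECM.{u})
    (hT : S_TIME.{u}) (hTr : S_TRAJ) (hF : S_FRZ) (hM : S_MEAS.{u}) (hI : S_INNER.{u}) :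
    S_SPREAD.{u} := by
  intro Ω _ P _ ν ins hC hD K
  obtain ⟨c, C, hc, hC0, hT1⟩ := hT ν hC
  have hT2 := hT1 Ω P ins hD
  have hvar := var_nonneg ν
  set K' := max K 1 with hK'
  have hK'0 : 0 < K' := lt_of_lt_of_le one_pos (le_max_right _ _)
  set a := Real.sqrt (c / 2) with ha
  have ha0 : 0 < a := Real.sqrt_pos.2 (by positivity)
  set K1 := Real.sqrt (1152 * var ν / c) + 2 * K' / a with hK1
  have hK1p : 0 < K1 := by positivity
  have hK1a : 1152 * var ν ≤ K1 ^ 2 * c := by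
    have h1 : Real.sqrt (1152 * var ν / c) ≤ K1 := by
      have : 0 < 2 * K' / a := by positivity
      linarith
    have h2 : Real.sqrt (1152 * var ν / c) ^ 2 ≤ K1 ^ 2 := pow_le_pow_left₀ (Real.sqrt_nonneg _) h1 2
    rw [Real.sq_sqrt (by positivity), div_le_iff₀ hc] at h2
    exact h2
  have hK1b : 2 * K' ≤ K1 * Real.sqrt (c / 2) := by
    have h1 : 2 * K' / a ≤ K1 := by
      have : 0 ≤ Real.sqrt (1152 * var ν / c) := Real.sqrt_nonneg _
      linarith
    rw [div_le_iff₀ ha0] at h1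
    exact h1
  obtain ⟨-, hW2, hW3⟩ := hW Ω P ν ins hC hD
  obtain ⟨p2, hp2, hW2⟩ := hW2 K1
  obtain ⟨p3, hp3, hW3⟩ := hW3 K1
  refine ⟨min p2 p3 / 4, by positivity, fun m H hH => ?_⟩
  have e2 := half hL hO hSe hTr hF hM hI Ω P ν ins hC hD c C hc hT2 K' K1 1 p2 (by simp)
    hK'0.le hK1p hK1a hK1b hp2 m H hH (by simpa only [one_mul] using hW2 m H hH)
  have e3 := half hL hO hSe hTr hF hM hI Ω P ν ins hC hD c C hc hT2 K' K1 (-1) p3 (by simp)
    hK'0.le hK1p hK1a hK1b hp3 m H hH (by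
      filter_upwards [hW3 m H hH] with n hn
      refine le_trans hn (measureReal_mono ?_)
      rintro ω ⟨h1, h2⟩
      refine ⟨h1, ?_⟩
      simp only [Set.mem_ofPred_eq] at h2 ⊢
      linarith)
  filter_upwards [e2, e3] with t h2 h3
  have hHn : 0 ≤ P.real H := measureReal_nonneg
  have ht5 : 0 ≤ (t : ℝ) ^ (5 / 6 : ℝ) := by positivity
  have hKK : K * (t : ℝ) ^ (5 / 6 : ℝ) ≤ K' * (t : ℝ) ^ (5 / 6 : ℝ) :=
    mul_le_mul_of_nonneg_right (le_max_left _ _) ht5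
  constructor
  · refine le_trans ?_ (le_trans h2 (measureReal_mono ?_))
    · refine mul_le_mul_of_nonneg_right ?_ hHn
      have := min_le_left p2 p3
      linarith
    · rintro ω ⟨a1, a2⟩
      refine ⟨a1, ?_⟩
      rcases a2 with a2 | a2
      · exact Or.inl a2
      · right
        linarith
  · refine le_trans ?_ (le_trans h3 (measureReal_mono ?_))
    · refine mul_le_mul_of_nonneg_right ?_ hHn
      have := min_le_right p2 p3
      linarith
    · rintro ω ⟨a1, a2⟩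
      refine ⟨a1, ?_⟩
      rcases a2 with a2 | a2
      · exact Or.inl a2
      · right
        linarith

end Pool.Agent.K1H13.BI
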